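import Pool.Agent.MWC.Stmts

/-!
# Row BMP of block MWC (MP_23468a_al): the list of the order preserving maps
-/

set_option autoImplicit false

namespace Pool.Agent.MWC.H2

open Pool.Agent.Helper14_MV Pool.Agent.Helper2_MV Pool.Agent.MVO Pool.Agent.MWL

theorem mem_lsts (q : ℕ) : ∀ (m : ℕ) (l : List ℕ), l ∈ lsts q m ↔ l.length = m ∧ ∀ x ∈ l, x < q
  | 0, l => by
    constructor
    · intro h
      have h1 : l = [] := by
        have : l ∈ [([] : List ℕ)] := h
        exact List.mem_singleton.1 this
      subst h1
      exact ⟨rfl, by simp⟩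
    · rintro ⟨h, -⟩
      rw [List.length_eq_zero_iff.1 h]
      exact List.mem_singleton.2 rfl
  | m + 1, l => by
    have e : lsts q (m + 1) = (lsts q m).flatMap (fun l => (List.range q).map (fun x => x :: l)) :=
      rfl
    rw [e, List.mem_flatMap]
    constructor
    · rintro ⟨l', hl', h⟩
      obtain ⟨x, hx, rfl⟩ := List.mem_map.1 h
      obtain ⟨h1, h2⟩ := (mem_lsts q m l').1 hl'
      refine ⟨by simp [h1], ?_⟩
      intro y hy
      rcases List.mem_cons.1 hy with rfl | hy
      · exact List.mem_range.1 hx
      · exact h2 y hy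
    · rintro ⟨h1, h2⟩
      cases l with
      | nil => simp at h1
      | cons x l' =>
        refine ⟨l', (mem_lsts q m l').2 ⟨by simpa using h1, fun y hy => h2 y ?_⟩, ?_⟩
        · exact List.mem_cons_of_mem _ hy
        · exact List.mem_map.2 ⟨x, List.mem_range.2 (h2 x (by simp)), rfl⟩

theorem rep_map (f : ℕ → ℕ) {m j : ℕ} (h : j < m) : rep ((List.range m).map f) j = f j := by
  unfold rep
  simp [List.getD, h]

theorem rep_mem {g : List ℕ} {j : ℕ} (h : j < g.length) : rep g j ∈ g := by
  unfold rep
  rw [List.getD_eq_getElem _ _ h]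
  exact List.getElem_mem h

theorem sum_map_range (F : ℕ → ℕ) :
    ∀ m : ℕ, ((List.range m).map F).sum = ∑ i ∈ Finset.range m, F i
  | 0 => rfl
  | m + 1 => by
    rw [List.range_succ, List.map_append, List.sum_append, Finset.sum_range_succ,
      sum_map_range F m]
    simp

/-- **BMP** -/
theorem bmp : BmpStmt := by
  refine ⟨?_, ?_, ?_⟩
  · intro k1 k f hf
    refine ⟨(List.range (k1 + 1)).map f, ?_, fun j hj => rep_map f (by omega)⟩
    unfold mps
    rw [List.mem_filter]
    refine ⟨(mem_lsts _ _ _).2 ⟨by simp, ?_⟩, ?_⟩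
    · intro x hx
      obtain ⟨i, hi, rfl⟩ := List.mem_map.1 hx
      have := hf.le i (by have := List.mem_range.1 hi; omega)
      omega
    · rw [List.all_eq_true]
      intro i hi
      have hi' := List.mem_range.1 hi
      rw [rep_map f (by omega), rep_map f (by omega), Nat.ble_eq]
      exact hf.mono i (i + 1) (by omega) (by omega)
  · intro k1 k g hg
    unfold mps at hg
    rw [List.mem_filter, mem_lsts, List.all_eq_true] at hg
    obtain ⟨⟨h1, h2⟩, h3⟩ := hg
    have hs : ∀ i < k1, rep g i ≤ rep g (i + 1) := by
      intro i hi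
      have := h3 i (List.mem_range.2 hi)
      rwa [Nat.ble_eq] at this
    refine ⟨?_, ?_⟩
    · intro i j hij hj
      induction j, hij using Nat.le_induction with
      | base => exact le_rfl
      | succ j hij ih => exact (ih (by omega)).trans (hs j (by omega))
    · intro i hi
      have := h2 _ (rep_mem (g := g) (j := i) (by omega))
      omega
  · intro k1 g f a j h
    unfold pss psh
    rw [sum_map_range]
    refine Finset.sum_congr rfl ?_
    intro i hi
    rw [h i (by have := Finset.mem_range.1 hi; omega)]
    by_cases h5 : f i = j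
    · rw [if_pos h5, if_pos (by rw [Nat.beq_eq]; exact h5)]
    · rw [if_neg h5, if_neg (by rw [Nat.beq_eq]; exact h5)]

end Pool.Agent.MWC.H2
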